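import Pool.Agent.H82.NET.Stmts

/-!
Board net, row TRE: a spanning tree which contains all vertical edges.
-/

set_option autoImplicit false

namespace Pool.NET

namespace H18

open SimpleGraph

theorem ad_symm {N : Set Nd} {h u : Nd → Prop} {v w : Nd} (H : Ad N h u v w) : Ad N h u w v := by
  obtain ⟨a, b, c⟩ := H
  refine ⟨b, a, ?_⟩
  tauto

theorem ad_irr {N : Set Nd} {h u : Nd → Prop} {v : Nd} (H : Ad N h u v v) : False := by
  obtain ⟨_, _, c⟩ := H
  rcases c with ⟨c, _⟩ | ⟨c, _⟩ | ⟨c, _⟩ | ⟨c, _⟩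
  · have := congrArg Prod.fst c
    simp at this
  · have := congrArg Prod.fst c
    simp at this
  · have := congrArg Prod.snd c
    simp at this
  · have := congrArg Prod.snd c
    simp at this

/-- All edges. -/
def gg (N : Set Nd) (u : Nd → Prop) : SimpleGraph N where
  Adj v w := G0 N u v.1 w.1
  symm := ⟨fun _ _ h => ad_symm h⟩
  loopless := ⟨fun _ h => ad_irr h⟩

/-- The vertical edges. -/
def hh (N : Set Nd) (u : Nd → Prop) : SimpleGraph N where
  Adj v w := (w.1 = (v.1.1, v.1.2 + 1) ∧ u v.1) ∨ (v.1 = (w.1.1, w.1.2 + 1) ∧ u w.1)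
  symm := ⟨fun _ _ h => h.symm⟩
  loopless := ⟨fun v h => by
    rcases h with ⟨c, _⟩ | ⟨c, _⟩
    · have := congrArg Prod.snd c
      simp at this
    · have := congrArg Prod.snd c
      simp at this⟩

theorem hh_le (N : Set Nd) (u : Nd → Prop) : hh N u ≤ gg N u := by
  intro v w h
  refine ⟨v.2, w.2, ?_⟩
  rcases h with h | h
  · exact Or.inr (Or.inr (Or.inl h))
  · exact Or.inr (Or.inr (Or.inr h))

theorem hh_acyclic (N : Set Nd) (u : Nd → Prop) : (hh N u).IsAcyclic := by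
  classical
  intro v c hc
  obtain ⟨x, hx, hmax⟩ := c.support.toFinset.exists_max_image (fun y : N => y.1.2)
    ⟨v, by simp⟩
  rw [List.mem_toFinset] at hx
  have hc' : (c.rotate x hx).IsCycle := by
    rw [Walk.isCycle_rotate]
    exact hc
  have hn := hc'.not_nil
  have h1 := (c.rotate x hx).adj_snd hn
  have h2 := (c.rotate x hx).adj_penultimate hn
  have hle : ∀ y ∈ (c.rotate x hx).support, y.1.2 ≤ x.1.2 := by
    intro y hy
    rw [Walk.mem_support_rotate_iff] at hy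
    exact hmax y (by simpa using hy)
  have key : ∀ y : N, y ∈ (c.rotate x hx).support → (hh N u).Adj x y →
      x.1 = (y.1.1, y.1.2 + 1) := by
    intro y hy hxy
    rcases hxy with ⟨h, _⟩ | ⟨h, _⟩
    · have h3 := hle y hy
      rw [h] at h3
      simp at h3
    · exact h
  have k1 := key _ ((c.rotate x hx).getVert_mem_support 1) h1
  have k2 := key _ ((c.rotate x hx).getVert_mem_support _) h2.symm
  apply hc'.snd_ne_penultimate
  apply Subtype.ext
  have k3 := k1.symm.trans k2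
  rw [Prod.mk.injEq] at k3
  exact Prod.ext k3.1 (by
    have := k3.2
    exact add_right_cancel this)

theorem gg_reach (N : Set Nd) (u : Nd → Prop) (v w : Nd) (h : Relation.ReflTransGen (G0 N u) v w) :
    ∀ (hv : v ∈ N) (hw : w ∈ N), (gg N u).Reachable ⟨v, hv⟩ ⟨w, hw⟩ := by
  induction h with
  | refl =>
    intro hv hw
    exact Reachable.refl _
  | tail h1 h2 ih =>
    intro hv hw
    have hb := h2.1
    have h3 := ih hv hb
    have h4 : (gg N u).Adj ⟨_, hb⟩ ⟨_, hw⟩ := h2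
    exact h3.trans h4.reachable

theorem tree_nb {V : Type} {T : SimpleGraph V} (hT : T.IsTree) (r v w w' : V)
    (h1 : T.Adj v w) (h2 : T.Adj v w') (h3 : T.dist r w < T.dist r v)
    (h4 : T.dist r w' < T.dist r v) : w = w' := by
  have e1 : T.dist r v = T.dist r w + 1 := by
    rcases hT.dist_eq_dist_add_one_of_adj r h1 with h | h
    · exact h
    · omega
  have e2 : T.dist r v = T.dist r w' + 1 := by
    rcases hT.dist_eq_dist_add_one_of_adj r h2 with h | h
    · exact h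
    · omega
  obtain ⟨p, hp⟩ := hT.connected.exists_walk_length_eq_dist r w
  obtain ⟨q, hq⟩ := hT.connected.exists_walk_length_eq_dist r w'
  have hp1 : (p.concat h1.symm).IsPath := by
    apply Walk.isPath_of_length_eq_dist
    rw [Walk.length_concat, hp, e1]
  have hq1 : (q.concat h2.symm).IsPath := by
    apply Walk.isPath_of_length_eq_dist
    rw [Walk.length_concat, hq, e2]
  have hu := (hT.existsUnique_path r v).unique hp1 hq1
  have h5 := congrArg Walk.penultimate hu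
  rw [Walk.penultimate_concat, Walk.penultimate_concat] at h5
  exact h5

end H18

open H18 in
theorem tre_thm : TRE_S := by
  classical
  intro N u _ hne hU hC
  obtain ⟨r, hr⟩ := hne
  have hne : Nonempty N := ⟨⟨r, hr⟩⟩
  have hconn : (gg N u).Connected :=
    SimpleGraph.Connected.mk fun v w => gg_reach N u v.1 w.1 (hC v.1 v.2 w.1 w.2) v.2 w.2
  obtain ⟨T, hHT, hTG, hT⟩ := hconn.exists_isTree_le_of_le_of_isAcyclic (hh_le N u)
    (hh_acyclic N u)
  have hadj : ∀ v w : Nd, Ad N (fun v => ∃ (hv : v ∈ N) (hw : (v.1 + 1, v.2) ∈ N),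
      T.Adj ⟨v, hv⟩ ⟨(v.1 + 1, v.2), hw⟩) u v w ↔
      ∃ (hv : v ∈ N) (hw : w ∈ N), T.Adj ⟨v, hv⟩ ⟨w, hw⟩ := by
    intro v w
    constructor
    · rintro ⟨hv, hw, h⟩
      refine ⟨hv, hw, ?_⟩
      rcases h with ⟨rfl, _, _, h⟩ | ⟨rfl, _, _, h⟩ | ⟨e, h⟩ | ⟨e, h⟩
      · exact h
      · exact h.symm
      · exact hHT (Or.inl ⟨e, h⟩)
      · exact hHT (Or.inr ⟨e, h⟩)
    · rintro ⟨hv, hw, h⟩
      refine ⟨hv, hw, ?_⟩
      obtain ⟨_, _, h'⟩ := hTG h
      rcases h' with ⟨e, _⟩ | ⟨e, _⟩ | h' | h'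
      · left
        refine ⟨e, hv, ?_⟩
        simp only at e
        subst e
        exact ⟨hw, h⟩
      · right
        left
        refine ⟨e, hw, ?_⟩
        simp only at e
        subst e
        exact ⟨hv, h.symm⟩
      · exact Or.inr (Or.inr (Or.inl h'))
      · exact Or.inr (Or.inr (Or.inr h'))
  refine ⟨fun v => ∃ (hv : v ∈ N) (hw : (v.1 + 1, v.2) ∈ N),
    T.Adj ⟨v, hv⟩ ⟨(v.1 + 1, v.2), hw⟩, ?_, ?_, ?_⟩
  · rintro v ⟨hv, hw, _⟩
    exact ⟨hv, hw⟩
  · intro v hv w hw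
    have h1 := hT.connected ⟨v, hv⟩ ⟨w, hw⟩
    rw [SimpleGraph.reachable_iff_reflTransGen] at h1
    have h2 : ∀ y : N, Relation.ReflTransGen T.Adj ⟨v, hv⟩ y →
        Relation.ReflTransGen (Ad N (fun v => ∃ (hv : v ∈ N) (hw : (v.1 + 1, v.2) ∈ N),
          T.Adj ⟨v, hv⟩ ⟨(v.1 + 1, v.2), hw⟩) u) v y.1 := by
      intro y hy
      induction hy with
      | refl => exact Relation.ReflTransGen.refl
      | @tail b c _ h2 ih => exact ih.tail ((hadj b.1 c.1).2 ⟨b.2, c.2, h2⟩)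
    exact h2 ⟨w, hw⟩ h1
  · refine ⟨fun v => if hv : v ∈ N then T.dist ⟨r, hr⟩ ⟨v, hv⟩ else 0, ?_, ?_⟩
    · intro v w h
      obtain ⟨hv, hw, h1⟩ := (hadj v w).1 h
      simp only [dif_pos hv, dif_pos hw]
      exact hT.dist_ne_of_adj ⟨r, hr⟩ h1
    · intro v w w' h h' hd hd'
      obtain ⟨hv, hw, h1⟩ := (hadj v w).1 h
      obtain ⟨_, hw', h2⟩ := (hadj v w').1 h'
      simp only [dif_pos hv, dif_pos hw] at hd
      simp only [dif_pos hv, dif_pos hw'] at hd'
      exact congrArg Subtype.val (tree_nb hT ⟨r, hr⟩ ⟨v, hv⟩ ⟨w, hw⟩ ⟨w', hw'⟩ h1 h2 hd hd')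

end Pool.NET
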